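import Pool.Agent.helper10.OM.SpecG

/-!
# Project OM, row GPP: a positive proportion of all pairs is good
-/

set_option autoImplicit false

namespace Pool.Agent.OM

open Finset Real Pool.Agent.AT Pool.Agent.helper85.FC

theorem GPP_mono (ε ε' : ℝ) (h : ε' ≤ ε) (a b : ℕ) (hg : GoodR ε' a b) : GoodR ε a b := by
  obtain ⟨q, r, hq, hT⟩ := hg
  refine ⟨q, r, hq, fun T hT1 => ?_⟩
  obtain ⟨u, hu⟩ := hT T hT1
  refine ⟨u, le_trans ?_ hu⟩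
  exact mul_le_mul_of_nonneg_right (by linarith) (Nat.cast_nonneg T)

/-- the pairs in a square with a large gcd -/
theorem GPP_gcd (M G : ℕ) (hG : 1 ≤ G) :
    (#{p ∈ Ioc 0 M ×ˢ Ioc 0 M | G < Nat.gcd p.1 p.2} : ℝ) ≤ (M : ℝ) ^ 2 / G := by
  classical
  have hsub : {p ∈ Ioc 0 M ×ˢ Ioc 0 M | G < Nat.gcd p.1 p.2} ⊆
      (Ioc G M).biUnion (fun g => {x ∈ Ioc 0 M | g ∣ x} ×ˢ {x ∈ Ioc 0 M | g ∣ x}) := by
    intro p hp
    rw [mem_filter, mem_product] at hp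
    obtain ⟨⟨h1, h2⟩, h3⟩ := hp
    rw [mem_biUnion]
    refine ⟨Nat.gcd p.1 p.2, ?_, ?_⟩
    · rw [mem_Ioc]
      refine ⟨h3, ?_⟩
      rw [mem_Ioc] at h1
      exact le_trans (Nat.gcd_le_left _ h1.1) h1.2
    · rw [mem_product, mem_filter, mem_filter]
      exact ⟨⟨h1, Nat.gcd_dvd_left _ _⟩, ⟨h2, Nat.gcd_dvd_right _ _⟩⟩
  have h1 : #{p ∈ Ioc 0 M ×ˢ Ioc 0 M | G < Nat.gcd p.1 p.2} ≤ ∑ g ∈ Ioc G M, (M / g) * (M / g) := by
    refine le_trans (card_le_card hsub) (le_trans card_biUnion_le (le_of_eq ?_))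
    apply sum_congr rfl
    intro g _
    rw [card_product, Nat.Ioc_filter_dvd_card_eq_div]
  have h2 : (#{p ∈ Ioc 0 M ×ˢ Ioc 0 M | G < Nat.gcd p.1 p.2} : ℝ) ≤
      ∑ g ∈ Ioc G M, (M : ℝ) ^ 2 * ((g : ℝ) ^ 2)⁻¹ := by
    refine le_trans (Nat.cast_le.mpr h1) ?_
    rw [Nat.cast_sum]
    apply sum_le_sum
    intro g _
    rw [Nat.cast_mul]
    have h3 : ((M / g : ℕ) : ℝ) ≤ (M : ℝ) / g := Nat.cast_div_le
    have h4 : (0 : ℝ) ≤ ((M / g : ℕ) : ℝ) := Nat.cast_nonneg _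
    calc ((M / g : ℕ) : ℝ) * ((M / g : ℕ) : ℝ) ≤ ((M : ℝ) / g) * ((M : ℝ) / g) :=
          mul_le_mul h3 h3 h4 (le_trans h4 h3)
      _ = (M : ℝ) ^ 2 * ((g : ℝ) ^ 2)⁻¹ := by
          rw [div_mul_div_comm, div_eq_mul_inv, pow_two, pow_two]
  rw [← mul_sum] at h2
  refine le_trans h2 ?_
  rw [div_eq_mul_inv]
  apply mul_le_mul_of_nonneg_left _ (by positivity)
  rcases le_or_gt G M with h | h
  · have h5 := sum_Ioc_inv_sq_le_sub (α := ℝ) (k := G) (n := M) (by omega) h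
    have h6 : (0 : ℝ) ≤ (M : ℝ)⁻¹ := by positivity
    linarith
  · rw [Ioc_eq_empty (by omega), sum_empty]
    positivity

/-- one pair -/
theorem GPP_pair (ε : ℝ) (N K L m s s' : ℕ) (hN : 2 ^ (L + 1) * K ≤ N) (hm : m < L)
    (hs : s ∈ Ioc 0 (2 * K)) (hs' : s' ∈ Ioc 0 (2 * K)) (ho' : Nat.Coprime s' 2)
    (hg : GQ ε (2 ^ m * s) s') :
    ∃ u v g : ℕ, u ∈ Icc 1 N ∧ v ∈ Icc 1 N ∧ Nat.Coprime u v ∧ GoodR ε u v ∧
      g = Nat.gcd s s' ∧ s = g * (u / 2 ^ m) ∧ s' = g * v := by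
  rw [mem_Ioc] at hs hs'
  have hgpos : 0 < Nat.gcd s s' := Nat.gcd_pos_of_pos_left _ hs.1
  have hgcd : Nat.gcd (2 ^ m * s) s' = Nat.gcd s s' := by
    apply Nat.Coprime.gcd_mul_left_cancel
    exact (Nat.Coprime.pow_right m ho').symm
  have h1 : 2 ^ m * s / Nat.gcd s s' = 2 ^ m * (s / Nat.gcd s s') :=
    Nat.mul_div_assoc _ (Nat.gcd_dvd_left _ _)
  have h2m : 0 < 2 ^ m := by positivity
  have hsg : 0 < s / Nat.gcd s s' := Nat.div_pos (Nat.gcd_le_left _ hs.1) hgpos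
  have hsg' : 0 < s' / Nat.gcd s s' := Nat.div_pos (Nat.gcd_le_right _ hs'.1) hgpos
  have h2L : 2 ^ m ≤ 2 ^ L := Nat.pow_le_pow_right (by norm_num) hm.le
  refine ⟨2 ^ m * (s / Nat.gcd s s'), s' / Nat.gcd s s', Nat.gcd s s', ?_, ?_, ?_, ?_, rfl, ?_, ?_⟩
  · rw [mem_Icc]
    refine ⟨Nat.mul_pos h2m hsg, ?_⟩
    calc 2 ^ m * (s / Nat.gcd s s') ≤ 2 ^ L * (2 * K) :=
          Nat.mul_le_mul h2L (le_trans (Nat.div_le_self _ _) hs.2)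
      _ = 2 ^ (L + 1) * K := by ring
      _ ≤ N := hN
  · rw [mem_Icc]
    refine ⟨hsg', ?_⟩
    calc s' / Nat.gcd s s' ≤ 1 * (2 * K) := by
            rw [one_mul]; exact le_trans (Nat.div_le_self _ _) hs'.2
      _ ≤ 2 ^ L * (2 * K) := Nat.mul_le_mul Nat.one_le_two_pow le_rfl
      _ = 2 ^ (L + 1) * K := by ring
      _ ≤ N := hN
  · rw [← h1, ← hgcd]
    apply Nat.coprime_div_gcd_div_gcd
    rw [hgcd]; exact hgpos
  · have h3 := hg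
    unfold GQ at h3
    rw [hgcd, h1] at h3
    exact h3
  · rw [Nat.mul_div_cancel_left _ h2m]
    exact (Nat.mul_div_cancel' (Nat.gcd_dvd_left _ _)).symm
  · exact (Nat.mul_div_cancel' (Nat.gcd_dvd_right _ _)).symm

/-- the other pair -/
theorem GPP_pair2 (ε : ℝ) (N K L m s s' : ℕ) (hN : 2 ^ (L + 1) * K ≤ N) (hm : m < L)
    (hs : s ∈ Ioc 0 (2 * K)) (hs' : s' ∈ Ioc 0 (2 * K)) (ho : Nat.Coprime s 2)
    (hg : GQ ε s (2 ^ m * s')) :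
    ∃ u v g : ℕ, u ∈ Icc 1 N ∧ v ∈ Icc 1 N ∧ Nat.Coprime u v ∧ GoodR ε u v ∧
      g = Nat.gcd s s' ∧ s = g * u ∧ s' = g * (v / 2 ^ m) := by
  rw [mem_Ioc] at hs hs'
  have hgpos : 0 < Nat.gcd s s' := Nat.gcd_pos_of_pos_left _ hs.1
  have hgcd : Nat.gcd s (2 ^ m * s') = Nat.gcd s s' := by
    apply Nat.Coprime.gcd_mul_left_cancel_right
    exact (Nat.Coprime.pow_right m ho).symm
  have h1 : 2 ^ m * s' / Nat.gcd s s' = 2 ^ m * (s' / Nat.gcd s s') :=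
    Nat.mul_div_assoc _ (Nat.gcd_dvd_right _ _)
  have h2m : 0 < 2 ^ m := by positivity
  have hsg : 0 < s / Nat.gcd s s' := Nat.div_pos (Nat.gcd_le_left _ hs.1) hgpos
  have hsg' : 0 < s' / Nat.gcd s s' := Nat.div_pos (Nat.gcd_le_right _ hs'.1) hgpos
  have h2L : 2 ^ m ≤ 2 ^ L := Nat.pow_le_pow_right (by norm_num) hm.le
  refine ⟨s / Nat.gcd s s', 2 ^ m * (s' / Nat.gcd s s'), Nat.gcd s s', ?_, ?_, ?_, ?_, rfl, ?_, ?_⟩
  · rw [mem_Icc]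
    refine ⟨hsg, ?_⟩
    calc s / Nat.gcd s s' ≤ 1 * (2 * K) := by
            rw [one_mul]; exact le_trans (Nat.div_le_self _ _) hs.2
      _ ≤ 2 ^ L * (2 * K) := Nat.mul_le_mul Nat.one_le_two_pow le_rfl
      _ = 2 ^ (L + 1) * K := by ring
      _ ≤ N := hN
  · rw [mem_Icc]
    refine ⟨Nat.mul_pos h2m hsg', ?_⟩
    calc 2 ^ m * (s' / Nat.gcd s s') ≤ 2 ^ L * (2 * K) :=
          Nat.mul_le_mul h2L (le_trans (Nat.div_le_self _ _) hs'.2)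
      _ = 2 ^ (L + 1) * K := by ring
      _ ≤ N := hN
  · rw [← h1, ← hgcd]
    apply Nat.coprime_div_gcd_div_gcd
    rw [hgcd]; exact hgpos
  · have h3 := hg
    unfold GQ at h3
    rw [hgcd, h1] at h3
    exact h3
  · exact (Nat.mul_div_cancel' (Nat.gcd_dvd_left _ _)).symm
  · rw [Nat.mul_div_cancel_left _ h2m]
    exact (Nat.mul_div_cancel' (Nat.gcd_dvd_right _ _)).symm

open Classical in
/-- the number of the pairs with small gcd -/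
theorem GPP_small (ε : ℝ) (N K L G : ℕ) (hN : 2 ^ (L + 1) * K ≤ N) (A : Finset ℕ)
    (hA : ∀ s ∈ A, s ∈ Ioc 0 (2 * K) ∧ Nat.Coprime s 2) :
    #{p ∈ A ×ˢ A | (∃ m < L, GQ ε (2 ^ m * p.1) (1 ^ m * p.2) ∨ GQ ε (1 ^ m * p.1) (2 ^ m * p.2)) ∧
      Nat.gcd p.1 p.2 ≤ G} ≤
    2 * (G * (L * #{p ∈ Icc 1 N ×ˢ Icc 1 N | Nat.Coprime p.1 p.2 ∧ GoodR ε p.1 p.2})) := by
  set Tg : Finset (ℕ × ℕ) := {p ∈ Icc 1 N ×ˢ Icc 1 N | Nat.Coprime p.1 p.2 ∧ GoodR ε p.1 p.2} with hTg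
  set U : Finset (ℕ × (ℕ × (ℕ × ℕ))) := (Icc 1 G) ×ˢ ((range L) ×ˢ Tg) with hU
  have hsub : {p ∈ A ×ˢ A | (∃ m < L, GQ ε (2 ^ m * p.1) (1 ^ m * p.2) ∨ GQ ε (1 ^ m * p.1) (2 ^ m * p.2)) ∧
      Nat.gcd p.1 p.2 ≤ G} ⊆
      U.image (fun t => (t.1 * (t.2.2.1 / 2 ^ t.2.1), t.1 * t.2.2.2)) ∪
      U.image (fun t => (t.1 * t.2.2.1, t.1 * (t.2.2.2 / 2 ^ t.2.1))) := by
    rintro ⟨s, s'⟩ hp
    rw [mem_filter, mem_product] at hp
    obtain ⟨⟨h1, h2⟩, ⟨m, hm, h3⟩, h4⟩ := hp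
    simp only at h1 h2 h3 h4
    obtain ⟨hs, ho⟩ := hA s h1
    obtain ⟨hs', ho'⟩ := hA s' h2
    have hgpos : 0 < Nat.gcd s s' := Nat.gcd_pos_of_pos_left _ (mem_Ioc.mp hs).1
    rw [mem_union]
    rcases h3 with h3 | h3
    · left
      rw [one_pow, one_mul] at h3
      obtain ⟨u, v, g, hu, hv, hc, hgood, hgg, e1, e2⟩ := GPP_pair ε N K L m s s' hN hm hs hs' ho' h3
      rw [mem_image]
      refine ⟨(g, (m, (u, v))), ?_, ?_⟩
      · rw [hU, mem_product, mem_product, mem_Icc, mem_range, hTg, mem_filter, mem_product]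
        exact ⟨⟨by rw [hgg]; exact hgpos, by rw [hgg]; exact h4⟩, hm, ⟨hu, hv⟩, hc, hgood⟩
      · simp only [← e1, ← e2]
    · right
      rw [one_pow, one_mul] at h3
      obtain ⟨u, v, g, hu, hv, hc, hgood, hgg, e1, e2⟩ := GPP_pair2 ε N K L m s s' hN hm hs hs' ho h3
      rw [mem_image]
      refine ⟨(g, (m, (u, v))), ?_, ?_⟩
      · rw [hU, mem_product, mem_product, mem_Icc, mem_range, hTg, mem_filter, mem_product]
        exact ⟨⟨by rw [hgg]; exact hgpos, by rw [hgg]; exact h4⟩, hm, ⟨hu, hv⟩, hc, hgood⟩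
      · simp only [← e1, ← e2]
  have hUc : #U = G * (L * #Tg) := by
    rw [hU, card_product, card_product, Nat.card_Icc, card_range, Nat.add_sub_cancel]
  refine le_trans (card_le_card hsub) (le_trans (card_union_le _ _) ?_)
  have i1 := card_image_le (s := U) (f := fun t => (t.1 * (t.2.2.1 / 2 ^ t.2.1), t.1 * t.2.2.2))
  have i2 := card_image_le (s := U) (f := fun t => (t.1 * t.2.2.1, t.1 * (t.2.2.2 / 2 ^ t.2.1)))
  rw [hUc] at i1 i2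
  omega

theorem GPP : GPP_stmt := by
  classical
  intro hOMA ε hε
  obtain ⟨L, hL⟩ := hOMA (min ε (1 / 100)) (lt_min hε (by norm_num))
  refine ⟨1 / (800 * ((L : ℝ) + 1) * (2 ^ (L + 2)) ^ 2), 2 ^ (L + 2), by positivity, ?_⟩
  intro N hN
  set K : ℕ := N / 2 ^ (L + 1) with hK
  have hKN : 2 ^ (L + 1) * K ≤ N := Nat.mul_div_le _ _
  have hK2 : 2 ≤ K := by
    rw [hK, Nat.le_div_iff_mul_le (by positivity)]
    calc 2 * 2 ^ (L + 1) = 2 ^ (L + 2) := by ring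
      _ ≤ N := hN
  have hKN2 : (N : ℝ) ≤ 2 ^ (L + 2) * K := by
    have h1 : N < 2 ^ (L + 1) * (K + 1) := Nat.lt_mul_div_succ N (by positivity)
    have h2 : N ≤ 2 ^ (L + 2) * K := by
      calc N ≤ 2 ^ (L + 1) * (K + 1) := h1.le
        _ ≤ 2 ^ (L + 1) * (2 * K) := Nat.mul_le_mul le_rfl (by omega)
        _ = 2 ^ (L + 2) * K := by ring
    exact_mod_cast h2
  set A : Finset ℕ := (range K).image (fun k => 2 * k + 1) with hA
  have hAc : #A = K := by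
    rw [hA, card_image_of_injective _ (fun x y h => by have h' : 2 * x + 1 = 2 * y + 1 := h; omega), card_range]
  have hAp : ∀ s ∈ A, s ∈ Ioc 0 (2 * K) ∧ Nat.Coprime s 2 := by
    intro s hs
    rw [hA, mem_image] at hs
    obtain ⟨k, hk, rfl⟩ := hs
    rw [mem_range] at hk
    refine ⟨by rw [mem_Ioc]; omega, ?_⟩
    rw [Nat.coprime_two_right]
    exact ⟨k, rfl⟩
  have h1 := hL 2 1 (by norm_num) (by norm_num) (by norm_num) (by norm_num) A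
    (fun s hs => ⟨(mem_Ioc.mp (hAp s hs).1).1, by rw [mul_one]; exact (hAp s hs).2⟩)
  rw [hAc] at h1
  have h2 := GPP_small (min ε (1 / 100)) N K L 100 hKN A hAp
  have h3 := GPP_gcd (2 * K) 100 (by norm_num)
  set Tg : Finset (ℕ × ℕ) := {p ∈ Icc 1 N ×ˢ Icc 1 N | Nat.Coprime p.1 p.2 ∧ GoodR ε p.1 p.2} with hTg
  have h4 : #{p ∈ Icc 1 N ×ˢ Icc 1 N | Nat.Coprime p.1 p.2 ∧ GoodR (min ε (1 / 100)) p.1 p.2} ≤ #Tg := by
    apply card_le_card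
    intro p hp
    rw [mem_filter] at hp
    rw [hTg, mem_filter]
    exact ⟨hp.1, hp.2.1, GPP_mono _ _ (min_le_left _ _) _ _ hp.2.2⟩
  have h5 : #{p ∈ A ×ˢ A | ∃ m < L, GQ (min ε (1 / 100)) (2 ^ m * p.1) (1 ^ m * p.2) ∨
      GQ (min ε (1 / 100)) (1 ^ m * p.1) (2 ^ m * p.2)} ≤
      #{p ∈ A ×ˢ A | (∃ m < L, GQ (min ε (1 / 100)) (2 ^ m * p.1) (1 ^ m * p.2) ∨
        GQ (min ε (1 / 100)) (1 ^ m * p.1) (2 ^ m * p.2)) ∧ Nat.gcd p.1 p.2 ≤ 100} +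
      #{p ∈ Ioc 0 (2 * K) ×ˢ Ioc 0 (2 * K) | 100 < Nat.gcd p.1 p.2} := by
    refine le_trans (card_le_card ?_) (card_union_le _ _)
    intro p hp
    rw [mem_filter] at hp
    rw [mem_union, mem_filter, mem_filter]
    obtain ⟨ha, hb⟩ := mem_product.mp hp.1
    rcases le_or_gt (Nat.gcd p.1 p.2) 100 with h | h
    · left
      exact ⟨hp.1, hp.2, h⟩
    · right
      exact ⟨mem_product.mpr ⟨(hAp _ ha).1, (hAp _ hb).1⟩, h⟩
  have h6 : (#{p ∈ A ×ˢ A | ∃ m < L, GQ (min ε (1 / 100)) (2 ^ m * p.1) (1 ^ m * p.2) ∨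
      GQ (min ε (1 / 100)) (1 ^ m * p.1) (2 ^ m * p.2)} : ℝ) ≤
      2 * (100 * (L * #Tg)) + ((2 * K : ℕ) : ℝ) ^ 2 / (100 : ℕ) := by
    have h7 := Nat.cast_le (α := ℝ).mpr h5
    rw [Nat.cast_add] at h7
    have h8 : (#{p ∈ A ×ˢ A | (∃ m < L, GQ (min ε (1 / 100)) (2 ^ m * p.1) (1 ^ m * p.2) ∨
        GQ (min ε (1 / 100)) (1 ^ m * p.1) (2 ^ m * p.2)) ∧ Nat.gcd p.1 p.2 ≤ 100} : ℝ) ≤
        2 * (100 * (L * #Tg)) := by
      have h9 := le_trans h2 (Nat.mul_le_mul (le_refl 2) (Nat.mul_le_mul (le_refl 100) (Nat.mul_le_mul (le_refl L) h4)))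
      exact_mod_cast h9
    linarith
  have h10 : (1 / 3 - min ε (1 / 100)) * (K : ℝ) ^ 2 ≥ (1 / 3 - 1 / 100) * (K : ℝ) ^ 2 :=
    mul_le_mul_of_nonneg_right (by linarith [min_le_right ε (1 / 100 : ℝ)]) (by positivity)
  have h11 := le_trans h10 (le_trans h1 h6)
  push_cast at h11
  have hT0 : (0 : ℝ) ≤ #Tg := Nat.cast_nonneg _
  have hK0 : (0 : ℝ) ≤ (K : ℝ) ^ 2 := by positivity
  have h12 : (K : ℝ) ^ 2 ≤ 800 * ((L : ℝ) + 1) * #Tg := by nlinarith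
  have hN0 : (N : ℝ) ^ 2 ≤ (2 ^ (L + 2) * (K : ℝ)) ^ 2 := by
    apply pow_le_pow_left₀ (Nat.cast_nonneg _) hKN2
  calc 1 / (800 * ((L : ℝ) + 1) * (2 ^ (L + 2)) ^ 2) * (N : ℝ) ^ 2
      ≤ 1 / (800 * ((L : ℝ) + 1) * (2 ^ (L + 2)) ^ 2) * (2 ^ (L + 2) * (K : ℝ)) ^ 2 :=
        mul_le_mul_of_nonneg_left hN0 (by positivity)
    _ = (K : ℝ) ^ 2 / (800 * ((L : ℝ) + 1)) := by
        have h13 : (2 : ℝ) ^ (L + 2) ≠ 0 := by positivity
        have h14 : (L : ℝ) + 1 ≠ 0 := by positivity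
        field_simp
    _ ≤ #Tg := by
        rw [div_le_iff₀ (by positivity)]
        linarith

end Pool.Agent.OM
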